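import Mathlib
import Pool.Agent.KS6_19.UP.Defs
import Pool.Agent.KS6_19.UP.Ultra

/-!
# Tracial ultrapowers of II₁ factors have no homomorphisms to group von Neumann algebras
-/

set_option autoImplicit false

open scoped BoundedContinuousFunction

namespace Pool.Agent.Results.MP_a0a75b_an.NoHomomorphisms

open Pool.Agent.Helper278 Pool.Agent.KS6_19.UP

universe u v w

/-- The tracial ultrapower of `(M, τ)` along every ultrafilter on `ℕ` exists. -/
def UltrapowersExist (M : Type u) [NormedRing M] [StarRing M] [CStarRing M]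
    [NormedAlgebra ℂ M] [StarModule ℂ M] (τ : M → ℂ) : Prop :=
  ∀ U : Ultrafilter ℕ, ∃ (Q : Type u) (_ : Ring Q) (_ : StarRing Q) (_ : Algebra ℂ Q)
    (_ : StarModule ℂ Q) (π : (ℕ →ᵇ M) →⋆ₐ[ℂ] Q) (σ : Q → ℂ), IsTracialUltrapower τ U π σ

/-- Every group has a left regular representation. -/
def LeftRegularsExist : Prop :=
  ∀ (G : Type v) [Group G], ∃ (K : Type v) (_ : NormedAddCommGroup K) (_ : InnerProductSpace ℂ K)
    (_ : CompleteSpace K) (b : HilbertBasis G ℂ K) (lam : G → K →L[ℂ] K), IsLeftRegular b lam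

/-- Every star homomorphism, unital or not, from `Q` to the von Neumann algebra `N` is zero. -/
def HomsVanish {H : Type w} [NormedAddCommGroup H] [InnerProductSpace ℂ H] [CompleteSpace H]
    (Q : Type u) [Ring Q] [StarRing Q] [Algebra ℂ Q] (N : VonNeumannAlgebra H) : Prop :=
  ∀ (f : Q →⋆ₙₐ[ℂ] Elt N) (x : Q), f x = 0

/-- For every nonprincipal ultrafilter on `ℕ`, every star homomorphism (unital or not) from the
tracial ultrapower of `(M, τ)` to a group von Neumann algebra `L(G)`, the von Neumann algebra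
generated by the left regular representation of the group `G`, is zero. -/
def NoHomToGroupVN (M : Type u) [NormedRing M] [StarRing M] [CStarRing M]
    [NormedAlgebra ℂ M] [StarModule ℂ M] (τ : M → ℂ) : Prop :=
  ∀ U : Ultrafilter ℕ, (∀ n, {n} ∉ U) → ∀ (Q : Type u) [Ring Q] [StarRing Q] [Algebra ℂ Q]
    [StarModule ℂ Q] (π : (ℕ →ᵇ M) →⋆ₐ[ℂ] Q) (σ : Q → ℂ), IsTracialUltrapower τ U π σ →
    ∀ (G : Type v) [Group G] (K : Type w) [NormedAddCommGroup K] [InnerProductSpace ℂ K]
      [CompleteSpace K] (b : HilbertBasis G ℂ K) (lam : G → K →L[ℂ] K), IsLeftRegular b lam →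
      HomsVanish Q (vnGen (Set.range lam))

/-- For every nonprincipal ultrafilter on `ℕ`, every star homomorphism `f` (unital or not) from the
tracial ultrapower of `(M, τ)` to a cocycle crossed product `B` of a star subalgebra that is separable
in the 2-norm by a discrete group has `φ (f 1) = 0`, where `φ` is the tracial state of `B`. -/
def NoHomToCrossedProduct (M : Type u) [NormedRing M] [StarRing M] [CStarRing M]
    [NormedAlgebra ℂ M] [StarModule ℂ M] (τ : M → ℂ) : Prop :=
  ∀ U : Ultrafilter ℕ, (∀ n, {n} ∉ U) → ∀ (Q : Type u) [Ring Q] [StarRing Q] [Algebra ℂ Q]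
    [StarModule ℂ Q] (π : (ℕ →ᵇ M) →⋆ₐ[ℂ] Q) (σ : Q → ℂ), IsTracialUltrapower τ U π σ →
    ∀ (B : Type w) [Ring B] [StarRing B] [Algebra ℂ B] [StarModule ℂ B] (φ : B →ₗ[ℂ] ℂ),
      IsTracialState φ →
      ∀ (G : Type v) [Group G] (B₀ : StarSubalgebra ℂ B) (u : G → B), IsCrossedProduct φ B₀ u →
        ∀ f : Q →⋆ₙₐ[ℂ] B, φ (f 1) = 0

/-- For every nonprincipal ultrafilter on `ℕ`, every star homomorphism `f` (unital or not) from the
tracial ultrapower of `(M, τ)` to an algebra `B` with a tracial state `φ` and a banded decomposition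
(`Banded`) has `φ (f 1) = 0`. -/
def NoHomToBanded (M : Type u) [NormedRing M] [StarRing M] [CStarRing M]
    [NormedAlgebra ℂ M] [StarModule ℂ M] (τ : M → ℂ) : Prop :=
  ∀ U : Ultrafilter ℕ, (∀ n, {n} ∉ U) → ∀ (Q : Type u) [Ring Q] [StarRing Q] [Algebra ℂ Q]
    [StarModule ℂ Q] (π : (ℕ →ᵇ M) →⋆ₐ[ℂ] Q) (σ : Q → ℂ), IsTracialUltrapower τ U π σ →
    ∀ (B : Type w) [Ring B] [StarRing B] [Algebra ℂ B] [StarModule ℂ B] (φ : B →ₗ[ℂ] ℂ),
      IsTracialState φ →
      ∀ (I : Type v) (V : I → Submodule ℂ B), Banded φ V → ∀ f : Q →⋆ₙₐ[ℂ] B, φ (f 1) = 0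

/-- Let `N` be any II₁ factor, on a Hilbert space of arbitrary dimension, hyperfinite or not, with
trace `τ`, and let `U` be any nonprincipal ultrafilter on `ℕ`. The tracial ultrapower `N^U` exists. It
is isomorphic to no group von Neumann algebra `L(G)` of a discrete group `G` of arbitrary cardinality,
and every star homomorphism, unital or not, from `N^U` to an `L(G)` is zero. Moreover every star
homomorphism `f` from `N^U` to an algebra `B` with a tracial state `φ` satisfies `φ (f 1) = 0` if `B`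
is a cocycle crossed product of a 2-norm separable algebra by a discrete group, or has a banded
decomposition. -/
theorem result {H : Type u} [NormedAddCommGroup H] [InnerProductSpace ℂ H] [CompleteSpace H]
    (N : VonNeumannAlgebra H) (τ : Elt N → ℂ) (h : IsIIOneFactor N τ) :
    UltrapowersExist (Elt N) τ ∧ LeftRegularsExist.{v} ∧
      UltrapowersNotGroupVN.{u, v, w} (Elt N) τ ∧ NoHomToGroupVN.{u, v, w} (Elt N) τ ∧
      NoHomToCrossedProduct.{u, v, w} (Elt N) τ ∧ NoHomToBanded.{u, v, w} (Elt N) τ := by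
  have hL := lyapProp (mkState N τ h.normal h.trace)
    (diffuse_of_factor (mkState N τ h.normal h.trace) h.center h.infinite)
  refine ⟨fun U => exists_ultrapower (mkState N τ h.normal h.trace) U, fun G _ => ?_,
    ultrapowersNotGroupVN τ h, ?_, ?_, ?_⟩
  · obtain ⟨b, lam, hb, -⟩ := exists_leftRegular G
    exact ⟨lp (fun _ : G => ℂ) 2, inferInstance, inferInstance, inferInstance, b, lam, hb⟩
  · intro U hU Q _ _ _ _ π σ hπ G _ K _ _ _ b lam hlam f x
    rw [hom_zero (T := mkState N τ h.normal h.trace) b hU hπ hL h.center lam hlam f]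
    rfl
  · intro U hU Q _ _ _ _ π σ hπ B _ _ _ _ φ hφ G _ B₀ u hu f
    exact no_hom (T := mkState N τ h.normal h.trace) hU hπ hL h.center φ (isTr_of_tracial hφ) _
      (crossed_banded (ptr_of_isTr (isTr_of_tracial hφ)) hu) f
  · intro U hU Q _ _ _ _ π σ hπ B _ _ _ _ φ hφ I V hV f
    exact no_hom (T := mkState N τ h.normal h.trace) hU hπ hL h.center φ (isTr_of_tracial hφ) V hV f

end Pool.Agent.Results.MP_a0a75b_an.NoHomomorphisms
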